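import Pool.Agent.Helper8.HX.Defs
import Pool.Agent.Helper8.DC.PG

/-!
The Bianchi identity in the form of a closed `E`-valued 2-form, and smoothness of the curvature.
-/

set_option autoImplicit false

open scoped Manifold ContDiff
open MeasureTheory

namespace Pool.Agent.Helper43.HX

open Pool.Agent.Helper8.DC Pool.Agent.Helper8.DA Pool.Agent.Helper8.DE Pool.Agent.Helper8.HX

theorem crossMat_sum (a v : R3) (r : Fin 3) : ∑ t, crossMat a r t * v t = crossProduct a v r := by
  have h : ∀ t, crossMat a r t = crossProduct a (Pi.single t 1) r := fun t => rfl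
  simp only [h, Fin.sum_univ_three]
  fin_cases r <;> simp [g_cr0, g_cr1, g_cr2] <;> ring

theorem curv_smooth {U : Set E4} (hU : IsOpen U) {A : E4 → Fin 4 → R3} (hA : ContDiffOn ℝ ∞ A U)
    (l m : Fin 4) (r : Fin 3) : ContDiffOn ℝ ∞ (fun z => curv A z l m r) U := by
  have sA : ∀ m, ContDiffOn ℝ ∞ (fun z => A z m) U := fun m => contDiffOn_pi.mp hA m
  have sc : ∀ m r, ContDiffOn ℝ ∞ (fun z => A z m r) U := fun m r => contDiffOn_pi.mp (sA m) r
  have h1 : ∀ l m r, ContDiffOn ℝ ∞ (fun z => pd l (fun w => A w m) z r) U := fun l m r =>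
    contDiffOn_pi.mp (g_sm_pd l hU (sA m)) r
  have h2 : ContDiffOn ℝ ∞ (fun z => crossProduct (A z l) (A z m) r) U := by
    fin_cases r
    · show ContDiffOn ℝ ∞ (fun z => crossProduct (A z l) (A z m) 0) U
      simp only [g_cr0]
      exact ((sc l 1).mul (sc m 2)).sub ((sc l 2).mul (sc m 1))
    · show ContDiffOn ℝ ∞ (fun z => crossProduct (A z l) (A z m) 1) U
      simp only [g_cr1]
      exact ((sc l 2).mul (sc m 0)).sub ((sc l 0).mul (sc m 2))
    · show ContDiffOn ℝ ∞ (fun z => crossProduct (A z l) (A z m) 2) U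
      simp only [g_cr2]
      exact ((sc l 0).mul (sc m 1)).sub ((sc l 1).mul (sc m 0))
  exact ((h1 l m r).sub (h1 m l r)).add h2

theorem bianchi_vec (A : E4 → Fin 4 → R3) (U : Set E4) (hU : IsOpen U)
    (hA : ContDiffOn ℝ ∞ A U) (y : E4) (hy : y ∈ U) (l m n : Fin 4) :
    pd l (fun z => curv A z m n) y + crossProduct (A y l) (curv A y m n) +
      (pd m (fun z => curv A z n l) y + crossProduct (A y m) (curv A y n l)) +
      (pd n (fun z => curv A z l m) y + crossProduct (A y n) (curv A y l m)) = 0 := by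
  have sA : ∀ m, ContDiffOn ℝ ∞ (fun z => A z m) U := fun m => contDiffOn_pi.mp hA m
  have dA : ∀ m, DifferentiableAt ℝ (fun z => A z m) y := fun m => g_sm_diff hU (sA m) hy
  have dpA : ∀ k m, DifferentiableAt ℝ (fun z => pd k (fun w => A w m) z) y := fun k m =>
    g_sm_diff hU (g_sm_pd k hU (sA m)) hy
  have pcurv : ∀ l m n, pd l (fun z => curv A z m n) y =
      pd l (fun z => pd m (fun w => A w n) z) y - pd l (fun z => pd n (fun w => A w m) z) y +
      (crossProduct (pd l (fun z => A z m) y) (A y n) +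
        crossProduct (A y m) (pd l (fun z => A z n) y)) := by
    intro l m n
    unfold curv
    rw [g_pd_add l ((dpA m n).fun_sub (dpA n m)) (g_cross_diff (dA m) (dA n)),
      g_pd_sub l (dpA m n) (dpA n m), g_pd_cross l (dA m) (dA n)]
  simp only [pcurv]
  rw [g_pd_comm m l hU (sA n) hy, g_pd_comm n l hU (sA m) hy, g_pd_comm n m hU (sA l) hy]
  unfold curv
  funext a
  fin_cases a <;>
  · simp only [Pi.add_apply, Pi.sub_apply, Pi.zero_apply, Fin.mk_zero, Fin.mk_one,
      Fin.reduceFinMk, g_cr0, g_cr1, g_cr2]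
    ring

/-- K7b: Bianchi, as a closed `E`-valued form with coefficients `adj`. -/
theorem closedAt_curv (A : E4 → Fin 4 → R3) (U : Set E4) (hU : IsOpen U)
    (hA : ContDiffOn ℝ ∞ A U) (y : E4) (hy : y ∈ U) :
    Pool.Agent.Helper8.DA.ClosedAt (fun z m => crossMat (A z m)) (fun z r l m => curv A z l m r)
      y := by
  have h1 : ∀ (l m n : Fin 4) (r : Fin 3), pd l (fun z => curv A z m n r) y =
      pd l (fun z => curv A z m n) y r := by
    intro l m n r
    have hd : ∀ r, DifferentiableAt ℝ (fun z => curv A z m n r) y := fun r =>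
      g_sm_diff hU (curv_smooth hU hA m n r) hy
    exact (g_pd_apply l (differentiableAt_pi.2 hd) r).symm
  intro r l m n
  have h := congrFun (bianchi_vec A U hU hA y hy l m n) r
  simp only [Pi.add_apply, Pi.zero_apply] at h
  show pd l (fun z => curv A z m n r) y + ∑ t, crossMat (A y l) r t * curv A y m n t +
    (pd m (fun z => curv A z n l r) y + ∑ t, crossMat (A y m) r t * curv A y n l t) +
    (pd n (fun z => curv A z l m r) y + ∑ t, crossMat (A y n) r t * curv A y l m t) = 0
  rw [crossMat_sum, crossMat_sum, crossMat_sum, h1, h1, h1]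
  exact h

end Pool.Agent.Helper43.HX
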