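import Pool.Agent.Helper43.HX.Bianchi

/-!
The pencil `α + β ψ` of sections.
-/

set_option autoImplicit false

open scoped Manifold ContDiff
open MeasureTheory

namespace Pool.Agent.Helper43.HX

open Pool.Agent.Helper8.DC Pool.Agent.Helper8.DA Pool.Agent.Helper8.DE Pool.Agent.Helper8.HX

variable {X : Type} [TopologicalSpace X] [ChartedSpace E4 X] [IsManifold (𝓡 4) ∞ X]

/-- Linear combinations of closed forms. -/
theorem closedAt_comb {N : ℕ} (B : E4 → Fin 4 → Matrix (Fin N) (Fin N) ℝ)
    (η ξ : E4 → Fin N → Fin 4 → Fin 4 → ℝ) (y : E4) (α β : ℝ)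
    (hη : ∀ r l m, DifferentiableAt ℝ (fun z => η z r l m) y)
    (hξ : ∀ r l m, DifferentiableAt ℝ (fun z => ξ z r l m) y)
    (h1 : ClosedAt B η y) (h2 : ClosedAt B ξ y) :
    ClosedAt B (fun z r l m => α * η z r l m + β * ξ z r l m) y := by
  have key : ∀ r l m n, dcov B (fun z r l m => α * η z r l m + β * ξ z r l m) y r l m n =
      α * dcov B η y r l m n + β * dcov B ξ y r l m n := by
    intro r l m n
    have h3 : pd l (fun z => α * η z r m n + β * ξ z r m n) y =
        α * pd l (fun z => η z r m n) y + β * pd l (fun z => ξ z r m n) y := by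
      show fderiv ℝ (fun z => α * η z r m n + β * ξ z r m n) y (EuclideanSpace.single l 1) = _
      rw [fderiv_fun_add ((hη r m n).const_mul α) ((hξ r m n).const_mul β),
        fderiv_const_mul (hη r m n), fderiv_const_mul (hξ r m n)]
      rfl
    unfold dcov
    rw [h3]
    have h4 : ∑ t, B y l r t * (α * η y t m n + β * ξ y t m n) =
        α * ∑ t, B y l r t * η y t m n + β * ∑ t, B y l r t * ξ y t m n := by
      rw [Finset.mul_sum, Finset.mul_sum, ← Finset.sum_add_distrib]
      exact Finset.sum_congr rfl fun t _ => by ring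
    rw [h4]
    ring
  intro r l m n
  rw [key, key, key]
  have e1 := h1 r l m n
  have e2 := h2 r l m n
  linear_combination α * e1 + β * e2

/-- K12: the pencil. -/
theorem exists_pencil (P : Bundle X) (ψ : Sect P (adj P)) (hs : IsSymm P ψ) (hc : ψ.Closed)
    (α β : ℝ) : ∃ ρ : Sect P (adj P), IsSymm P ρ ∧ ρ.Closed ∧
      ∀ i y, ρ.s i y = pencil α β (ψ.s i y) := by
  have hψ : ∀ i r a, ContDiffOn ℝ ∞ (fun y => ψ.s i y r a) (P.c i).target := by
    intro i r a
    exact contDiffOn_pi.1 (contDiffOn_pi.1 (ψ.smooth i) r) a
  let ρ : Sect P (adj P) :=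
    { s := fun i y => pencil α β (ψ.s i y)
      smooth := by
        intro i
        refine contDiffOn_pi.2 fun r => contDiffOn_pi.2 fun a => ?_
        exact contDiffOn_const.add (contDiffOn_const.mul (hψ i r a))
      compat := by
        intro i j y hy r
        have hψc := ψ.compat i j y hy r
        have hg : P.g i j y * (P.g i j y).transpose = 1 :=
          (Matrix.mem_orthogonalGroup_iff (Fin 3) ℝ).1
            (Matrix.mem_specialOrthogonalGroup_iff.1 (P.g_mem i j y hy)).1
        have h1 : ∀ t a, (P.g i j y).mulVec (pencil α β (ψ.s j y) t) a =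
            α * P.g i j y a t + β * (P.g i j y).mulVec (ψ.s j y t) a := by
          intro t a
          simp only [Matrix.mulVec, dotProduct, pencil, mul_add, Finset.sum_add_distrib,
            mul_ite, mul_one, mul_zero, Finset.sum_ite_eq, Finset.mem_univ, if_true,
            Finset.mul_sum]
          congr 1
          · ring
          · exact Finset.sum_congr rfl fun b _ => by ring
        funext a
        have h2 := congrFun hψc a
        have h3 := congrFun (congrFun hg r) a
        rw [Matrix.mul_apply, Matrix.one_apply] at h3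
        rw [Finset.sum_apply] at h2
        rw [Finset.sum_apply]
        show α * (if r = a then 1 else 0) + β * ψ.s i (P.tr i j y) r a =
          ∑ t, P.g i j y r t * (P.g i j y).mulVec (pencil α β (ψ.s j y) t) a
        have h4 : ψ.s i (P.tr i j y) r a =
            ∑ t, P.g i j y r t * (P.g i j y).mulVec (ψ.s j y t) a := h2
        rw [h4, ← h3, Finset.mul_sum, Finset.mul_sum, ← Finset.sum_add_distrib]
        refine Finset.sum_congr rfl fun t _ => ?_
        rw [h1, Matrix.transpose_apply]
        ring }
  refine ⟨ρ, ?_, ?_, fun i y => rfl⟩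
  · intro i y hy r a
    show α * (if r = a then 1 else 0) + β * ψ.s i y r a =
      α * (if a = r then 1 else 0) + β * ψ.s i y a r
    rw [hs i y hy r a]
    by_cases h : r = a
    · rw [if_pos h, if_pos h.symm]
    · rw [if_neg h, if_neg (Ne.symm h)]
  · intro i y hy
    have hU : IsOpen (P.c i).target := (P.c i).open_target
    have hd1 : ∀ r l m, DifferentiableAt ℝ (fun z => curv (P.A i) z l m r) y := by
      intro r l m
      exact ((curv_smooth hU (P.A_smooth i) l m r).contDiffAt (hU.mem_nhds hy)).differentiableAt
        (by simp)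
    have hd2 : ∀ r l m, DifferentiableAt ℝ (fun z => formL (P.A i) (ψ.s i) z r l m) y := by
      intro r l m
      have : ContDiffOn ℝ ∞ (fun z => formL (P.A i) (ψ.s i) z r l m) (P.c i).target := by
        show ContDiffOn ℝ ∞ (fun z => ∑ a, ψ.s i z r a * curv (P.A i) z l m a) (P.c i).target
        exact ContDiffOn.sum fun a _ => (hψ i r a).mul (curv_smooth hU (P.A_smooth i) l m a)
      exact (this.contDiffAt (hU.mem_nhds hy)).differentiableAt (by simp)
    have h := closedAt_comb ((adj P).B i) (fun z r l m => curv (P.A i) z l m r)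
      (formL (P.A i) (ψ.s i)) y α β hd1 hd2 (closedAt_curv (P.A i) _ hU (P.A_smooth i) y hy) (hc i y hy)
    have e : (fun (z : E4) (r : Fin 3) (l m : Fin 4) =>
        α * curv (P.A i) z l m r + β * formL (P.A i) (ψ.s i) z r l m) =
        formL (P.A i) (ρ.s i) := by
      funext z r l m
      show α * curv (P.A i) z l m r + β * (∑ a, ψ.s i z r a * curv (P.A i) z l m a) =
        ∑ a, (α * (if r = a then 1 else 0) + β * ψ.s i z r a) * curv (P.A i) z l m a
      simp only [add_mul, Finset.sum_add_distrib, mul_ite, mul_one, mul_zero, ite_mul, zero_mul,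
        Finset.sum_ite_eq, Finset.mem_univ, if_true, Finset.mul_sum]
      congr 1
      exact Finset.sum_congr rfl fun b _ => by ring
    rw [e] at h
    exact h

end Pool.Agent.Helper43.HX
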