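import Pool.Agent.Helper8.HX.Defs

/-!
The curvature of `A + t a`.
-/

set_option autoImplicit false

open scoped Manifold ContDiff
open MeasureTheory

namespace Pool.Agent.Helper43.HX

open Pool.Agent.Helper8.DC Pool.Agent.Helper8.DA Pool.Agent.Helper8.DE Pool.Agent.Helper8.HX

/-- V1 -/
theorem curv_vary (A a : E4 → Fin 4 → R3) (y : E4) (hA : DifferentiableAt ℝ A y)
    (ha : DifferentiableAt ℝ a y) (t : ℝ) (l m : Fin 4) :
    curv (vary A a t) y l m = curv A y l m + t • dvar A a y l m +
      t ^ 2 • crossProduct (a y l) (a y m) := by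
  have h : ∀ l m : Fin 4, pd l (fun z => vary A a t z m) y =
      pd l (fun z => A z m) y + t • pd l (fun z => a z m) y := by
    intro l m
    have hA' : DifferentiableAt ℝ (fun z => A z m) y := differentiableAt_pi.1 hA m
    have ha' : DifferentiableAt ℝ (fun z => a z m) y := differentiableAt_pi.1 ha m
    have h1 : fderiv ℝ (fun z => A z m + t • a z m) y =
        fderiv ℝ (fun z => A z m) y + t • fderiv ℝ (fun z => a z m) y :=
      (hA'.hasFDerivAt.add (ha'.hasFDerivAt.const_smul t)).fderiv
    show fderiv ℝ (fun z => A z m + t • a z m) y (EuclideanSpace.single l 1) = _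
    rw [h1]
    rfl
  have h2 : ∀ m, vary A a t y m = A y m + t • a y m := fun m => rfl
  rw [curv, h, h, h2, h2, curv, dvar]
  simp only [map_add, map_smul, LinearMap.add_apply, LinearMap.smul_apply, smul_add, smul_sub,
    smul_smul, ← pow_two]
  abel

end Pool.Agent.Helper43.HX
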